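import Pool.Agent.Lib.MP_fa837f_gt.P2.Iface

/-!
# DU: differentiation under the integral sign along a line
-/

set_option autoImplicit false

open MeasureTheory Matrix Set Filter Topology

namespace Pool.Agent.Lib.MP_fa837f_gt.P2.H33

open Pool.Agent.Lib.MP_fa837f_gt.P2

variable {n k : ℕ}

/-- Polynomials against exponentials. -/
theorem pe (N : ℕ) {x : ℝ} (hx : 0 ≤ x) :
    (1 + x) ^ N * Real.exp (-x) ≤
      2 ^ N * N.factorial * Real.exp (1 / 2) * Real.exp (-(x / 2)) := by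
  have h := Real.pow_div_factorial_le_exp ((1 + x) / 2) (by linarith) N
  have hN : (0 : ℝ) < N.factorial := by positivity
  rw [div_le_iff₀ hN, div_pow, div_le_iff₀ (by positivity)] at h
  have e1 : Real.exp ((1 + x) / 2) = Real.exp (1 / 2) * Real.exp (x / 2) := by
    rw [← Real.exp_add]; congr 1; ring
  have e2 : Real.exp (x / 2) * Real.exp (-x) = Real.exp (-(x / 2)) := by
    rw [← Real.exp_add]; congr 1; ring
  calc (1 + x) ^ N * Real.exp (-x)
      ≤ (Real.exp ((1 + x) / 2) * N.factorial * 2 ^ N) * Real.exp (-x) :=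
        mul_le_mul_of_nonneg_right h (Real.exp_pos _).le
    _ = 2 ^ N * N.factorial * Real.exp (1 / 2) * (Real.exp (x / 2) * Real.exp (-x)) := by
        rw [e1]; ring
    _ = _ := by rw [e2]

/-- Gaussians are integrable. -/
theorem gauss_int {a : ℝ} (ha : 0 < a) :
    Integrable fun y : Pt k => Real.exp (-(a * ‖y‖ ^ 2)) := by
  set d := Module.finrank ℝ (Pt k) with hd
  have hint : Integrable (fun y : Pt k => Real.exp (((d + 1 : ℕ) : ℝ) ^ 2 / (4 * a)) *
      (1 + ‖y‖) ^ (-((d : ℝ) + 1))) volume := by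
    apply Integrable.const_mul
    exact integrable_one_add_norm (by rw [← hd]; linarith)
  have hc : Continuous fun y : Pt k => Real.exp (-(a * ‖y‖ ^ 2)) := by fun_prop
  refine hint.mono' hc.aestronglyMeasurable (Eventually.of_forall fun y => ?_)
  have hy : (0 : ℝ) < 1 + ‖y‖ := by positivity
  have h5 : (1 + ‖y‖) ^ (-((d : ℝ) + 1)) = ((1 + ‖y‖) ^ (d + 1))⁻¹ := by
    rw [Real.rpow_neg hy.le]
    congr 1
    have : ((d : ℝ) + 1) = ((d + 1 : ℕ) : ℝ) := by push_cast; ring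
    rw [this, Real.rpow_natCast]
  rw [Real.norm_eq_abs, abs_of_pos (Real.exp_pos _), h5, le_mul_inv_iff₀ (by positivity)]
  have h1 : 1 + ‖y‖ ≤ Real.exp ‖y‖ := by
    have := Real.add_one_le_exp ‖y‖
    linarith
  calc Real.exp (-(a * ‖y‖ ^ 2)) * (1 + ‖y‖) ^ (d + 1)
      ≤ Real.exp (-(a * ‖y‖ ^ 2)) * Real.exp ‖y‖ ^ (d + 1) := by gcongr
    _ = Real.exp (-(a * ‖y‖ ^ 2) + ((d + 1 : ℕ) : ℝ) * ‖y‖) := by
        rw [Real.exp_add, ← Real.exp_nat_mul]
    _ ≤ Real.exp (((d + 1 : ℕ) : ℝ) ^ 2 / (4 * a)) := by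
        apply Real.exp_le_exp.mpr
        have h2 : 0 ≤ (2 * a * ‖y‖ - ((d + 1 : ℕ) : ℝ)) ^ 2 / (4 * a) := by positivity
        have h3 : (2 * a * ‖y‖ - ((d + 1 : ℕ) : ℝ)) ^ 2 / (4 * a) =
            a * ‖y‖ ^ 2 - ((d + 1 : ℕ) : ℝ) * ‖y‖ + ((d + 1 : ℕ) : ℝ) ^ 2 / (4 * a) := by
          field_simp
          ring
        linarith

section

variable (m : Fin n → Fin k → ℝ) (hm : Spans m) (δ : ℝ) (h0 : 0 < δ) (h1 : δ ≤ 1 / 4)
    (η : ℝ) (hη : 0 < η) (w τ : Fin n → ℝ)

theorem dL (y : Pt k) (i : Fin n) (u : ℝ) :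
    HasDerivAt (fun u => (fam m hm δ h0 h1 η hη w τ u).L y i)
      (-(τ i) * ((fam m hm δ h0 h1 η hη w τ u).L y i - Gm m y i i)) u := by
  have h : HasDerivAt (fun u : ℝ => Gm m y i i + η * Real.exp (-(w i + u * τ i)))
      (η * (Real.exp (-(w i + u * τ i)) * (-(τ i)))) u := by
    have := ((((hasDerivAt_id u).mul_const (τ i)).const_add (w i)).neg.exp.const_mul η).const_add
      (Gm m y i i)
    simpa using this
  refine HasDerivAt.congr_deriv h ?_
  show _ = -(τ i) * ((Gm m y i i + η * Real.exp (-(w i + u * τ i))) - Gm m y i i)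
  ring

theorem dc (i : Fin n) (u : ℝ) :
    HasDerivAt (fun u => (fam m hm δ h0 h1 η hη w τ u).c i)
      ((fam m hm δ h0 h1 η hη w τ u).c i * ((1 + δ) * τ i)) u := by
  have h : HasDerivAt (fun u : ℝ => (1 + δ) * Real.exp ((1 + δ) * (w i + u * τ i)))
      ((1 + δ) * (Real.exp ((1 + δ) * (w i + u * τ i)) * ((1 + δ) * τ i))) u := by
    have := ((((hasDerivAt_id u).mul_const (τ i)).const_add (w i)).const_mul (1 + δ)).exp.const_mul
      (1 + δ)
    simpa using this
  refine HasDerivAt.congr_deriv h ?_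
  show _ = (1 + δ) * Real.exp ((1 + δ) * (w i + u * τ i)) * ((1 + δ) * τ i)
  ring

theorem dr (hSl : SlStatement) (y : Pt k) (i : Fin n) (u : ℝ) :
    HasDerivAt (fun u => (fam m hm δ h0 h1 η hη w τ u).r y i)
      (τ i * (fam m hm δ h0 h1 η hη w τ u).r y i *
        (1 + δ * (Gm m y i i / (fam m hm δ h0 h1 η hη w τ u).L y i))) u := by
  have hL := (hSl n k (fam m hm δ h0 h1 η hη w τ u)).Lpos y i
  have h := (dc m hm δ h0 h1 η hη w τ i u).mul
    ((dL m hm δ h0 h1 η hη w τ y i u).rpow_const (p := δ) (Or.inl hL.ne'))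
  refine HasDerivAt.congr_deriv h ?_
  rw [Real.rpow_sub_one hL.ne']
  show _ = τ i * ((fam m hm δ h0 h1 η hη w τ u).c i *
    (fam m hm δ h0 h1 η hη w τ u).L y i ^ δ) * _
  field_simp
  ring

theorem dkap (hSl : SlStatement) (y : Pt k) (u : ℝ) :
    HasDerivAt (fun u => (fam m hm δ h0 h1 η hη w τ u).kap y)
      (∑ i, τ i * (fam m hm δ h0 h1 η hη w τ u).r y i * Gm m y i i) u := by
  have h : ∀ i : Fin n, HasDerivAt (fun u => (fam m hm δ h0 h1 η hη w τ u).c i / (1 + δ) *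
      (fam m hm δ h0 h1 η hη w τ u).L y i ^ (1 + δ))
      (τ i * (fam m hm δ h0 h1 η hη w τ u).r y i * Gm m y i i) u := by
    intro i
    have hL := (hSl n k (fam m hm δ h0 h1 η hη w τ u)).Lpos y i
    have h := ((dc m hm δ h0 h1 η hη w τ i u).div_const (1 + δ)).mul
      ((dL m hm δ h0 h1 η hη w τ y i u).rpow_const (p := 1 + δ) (Or.inl hL.ne'))
    refine HasDerivAt.congr_deriv h ?_
    rw [add_sub_cancel_left, Real.rpow_add hL, Real.rpow_one]
    have h2 : (1 + δ) ≠ 0 := by linarith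
    show _ = τ i * ((fam m hm δ h0 h1 η hη w τ u).c i *
      (fam m hm δ h0 h1 η hη w τ u).L y i ^ δ) * _
    field_simp
    ring
  exact HasDerivAt.fun_sum fun i _ => h i

theorem dvec (hSl : SlStatement) (y : Pt k) (u : ℝ) :
    HasDerivAt (fun u => (fam m hm δ h0 h1 η hη w τ u).r y)
      (fun i => τ i * (fam m hm δ h0 h1 η hη w τ u).r y i *
        (1 + δ * (Gm m y i i / (fam m hm δ h0 h1 η hη w τ u).L y i))) u :=
  hasDerivAt_pi.mpr fun i => dr m hm δ h0 h1 η hη w τ hSl y i u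

/-- The logarithmic derivative of `ρ`. -/
noncomputable def PP (y : Pt k) (u : ℝ) : ℝ :=
  ∑ i, τ i * (fam m hm δ h0 h1 η hη w τ u).r y i *
    (be m ((fam m hm δ h0 h1 η hη w τ u).r y) i i *
      (1 + δ * (Gm m y i i / (fam m hm δ h0 h1 η hη w τ u).L y i)) - Gm m y i i)

/-- The derivative of `a`. -/
noncomputable def AP (y : Pt k) (u : ℝ) : ℝ :=
  ∑ i, τ i * (fam m hm δ h0 h1 η hη w τ u).r y i *
    al m τ ((fam m hm δ h0 h1 η hη w τ u).r y) i i *
      (1 + δ * (Gm m y i i / (fam m hm δ h0 h1 η hη w τ u).L y i))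

theorem drho (hSl : SlStatement) (hWd : WdStatement) (y : Pt k) (u : ℝ) :
    HasDerivAt (fun u => (fam m hm δ h0 h1 η hη w τ u).rho y)
      (PP m hm δ h0 h1 η hη w τ y u * (fam m hm δ h0 h1 η hη w τ u).rho y) u := by
  have hr := (hSl n k (fam m hm δ h0 h1 η hη w τ u)).rpos y
  have hd := ((hWd n k m hm).2.2 _ hr).1
  have h1' := hd.comp_hasDerivAt u (dvec m hm δ h0 h1 η hη w τ hSl y u)
  have h2' := (dkap m hm δ h0 h1 η hη w τ hSl y u).neg.exp
  have h := h1'.mul h2'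
  refine HasDerivAt.congr_deriv h ?_
  simp only [_root_.sum_apply, _root_.smul_apply,
    ContinuousLinearMap.proj_apply, smul_eq_mul, Function.comp_apply, Pi.neg_apply]
  show _ = PP m hm δ h0 h1 η hη w τ y u *
    ((RR m ((fam m hm δ h0 h1 η hη w τ u).r y)).det *
      Real.exp (-((fam m hm δ h0 h1 η hη w τ u).kap y)))
  unfold PP
  have e1 : (∑ i, τ i * (fam m hm δ h0 h1 η hη w τ u).r y i *
      (be m ((fam m hm δ h0 h1 η hη w τ u).r y) i i *
      (1 + δ * (Gm m y i i / (fam m hm δ h0 h1 η hη w τ u).L y i)) - Gm m y i i)) =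
      (∑ i, be m ((fam m hm δ h0 h1 η hη w τ u).r y) i i *
        (τ i * (fam m hm δ h0 h1 η hη w τ u).r y i *
          (1 + δ * (Gm m y i i / (fam m hm δ h0 h1 η hη w τ u).L y i)))) -
      ∑ i, τ i * (fam m hm δ h0 h1 η hη w τ u).r y i * Gm m y i i := by
    rw [← Finset.sum_sub_distrib]
    exact Finset.sum_congr rfl fun i _ => by ring
  have e2 : (∑ l, (RR m ((fam m hm δ h0 h1 η hη w τ u).r y)).det *
      be m ((fam m hm δ h0 h1 η hη w τ u).r y) l l *
        (τ l * (fam m hm δ h0 h1 η hη w τ u).r y l *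
          (1 + δ * (Gm m y l l / (fam m hm δ h0 h1 η hη w τ u).L y l)))) =
      (RR m ((fam m hm δ h0 h1 η hη w τ u).r y)).det *
      ∑ i, be m ((fam m hm δ h0 h1 η hη w τ u).r y) i i *
        (τ i * (fam m hm δ h0 h1 η hη w τ u).r y i *
          (1 + δ * (Gm m y i i / (fam m hm δ h0 h1 η hη w τ u).L y i))) := by
    rw [Finset.mul_sum]
    exact Finset.sum_congr rfl fun i _ => by ring
  rw [e1, e2]
  ring

theorem daa (hSl : SlStatement) (hWe : WeStatement) (y : Pt k) (u : ℝ) :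
    HasDerivAt (fun u => aa m τ ((fam m hm δ h0 h1 η hη w τ u).r y))
      (AP m hm δ h0 h1 η hη w τ y u) u := by
  have hr := (hSl n k (fam m hm δ h0 h1 η hη w τ u)).rpos y
  have hd := (hWe n k m τ hm _ hr).2.1
  have h := hd.comp_hasDerivAt u (dvec m hm δ h0 h1 η hη w τ hSl y u)
  refine HasDerivAt.congr_deriv h ?_
  simp only [_root_.sum_apply, _root_.smul_apply,
    ContinuousLinearMap.proj_apply, smul_eq_mul]
  exact Finset.sum_congr rfl fun i _ => by ring

/-! ### Bounds -/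

theorem Gm_nonneg (y : Pt k) (i : Fin n) : 0 ≤ Gm m y i i :=
  Finset.sum_nonneg fun _ _ => mul_self_nonneg _

theorem ratio (hSl : SlStatement) (y : Pt k) (i : Fin n) (u : ℝ) :
    |1 + δ * (Gm m y i i / (fam m hm δ h0 h1 η hη w τ u).L y i)| ≤ 2 := by
  have hL := (hSl n k (fam m hm δ h0 h1 η hη w τ u)).Lpos y i
  have hG := Gm_nonneg m y i
  have hGL : Gm m y i i ≤ (fam m hm δ h0 h1 η hη w τ u).L y i := by
    show Gm m y i i ≤ Gm m y i i + η * Real.exp (-(w i + u * τ i))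
    have : 0 < η * Real.exp (-(w i + u * τ i)) := by positivity
    linarith
  have h3 : Gm m y i i / (fam m hm δ h0 h1 η hη w τ u).L y i ≤ 1 := (div_le_one hL).mpr hGL
  have h4 : 0 ≤ Gm m y i i / (fam m hm δ h0 h1 η hη w τ u).L y i := div_nonneg hG hL.le
  rw [abs_of_nonneg (by positivity)]
  nlinarith

theorem PP_bd (hWa : WaStatement) (hSl : SlStatement) (y : Pt k) (u : ℝ) :
    |PP m hm δ h0 h1 η hη w τ y u| ≤
      2 * (∑ j, |τ j|) * (1 + (fam m hm δ h0 h1 η hη w τ u).kap y) := by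
  set S := fam m hm δ h0 h1 η hη w τ u with hS
  have hl := hSl n k S
  have hb := hWa n k m (S.r y) hm (hl.rpos y)
  have hk := hl.kap0 y
  have hterm : ∀ i, |τ i * S.r y i * (be m (S.r y) i i * (1 + δ * (Gm m y i i / S.L y i)) -
      Gm m y i i)| ≤ |τ i| * 2 + |τ i| * (2 * S.kap y) := by
    intro i
    have e : τ i * S.r y i * (be m (S.r y) i i * (1 + δ * (Gm m y i i / S.L y i)) -
      Gm m y i i) = τ i * ((S.r y i * be m (S.r y) i i) * (1 + δ * (Gm m y i i / S.L y i))) -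
        τ i * (S.r y i * Gm m y i i) := by ring
    have hrG : S.r y i * Gm m y i i ≤ 2 * S.kap y := by
      have h2 : S.r y i * Gm m y i i ≤ ∑ j, S.r y j * Gm m y j j :=
        Finset.single_le_sum (f := fun j => S.r y j * Gm m y j j)
          (fun j _ => mul_nonneg (hl.rpos y j).le (Gm_nonneg m y j)) (Finset.mem_univ i)
      have h3 : ∑ j, S.r y j * Gm m y j j ≤ (1 + δ) * S.kap y := hl.rkap y
      nlinarith
    have h5 := ratio m hm δ h0 h1 η hη w τ hSl y i u
    have h6 : 0 ≤ S.r y i * be m (S.r y) i i := mul_nonneg (hl.rpos y i).le (hb.nonneg i)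
    have h7 := hb.le1 i
    have h8 : 0 ≤ S.r y i * Gm m y i i := mul_nonneg (hl.rpos y i).le (Gm_nonneg m y i)
    rw [e]
    refine (abs_sub _ _).trans (add_le_add ?_ ?_)
    · rw [abs_mul, abs_mul]
      apply mul_le_mul_of_nonneg_left _ (abs_nonneg _)
      rw [abs_of_nonneg h6]
      calc S.r y i * be m (S.r y) i i * |1 + δ * (Gm m y i i / S.L y i)| ≤ 1 * 2 :=
            mul_le_mul h7 h5 (abs_nonneg _) (by norm_num)
        _ = 2 := by norm_num
    · rw [abs_mul, abs_of_nonneg h8]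
      exact mul_le_mul_of_nonneg_left hrG (abs_nonneg _)
  calc |PP m hm δ h0 h1 η hη w τ y u| ≤ ∑ i, |τ i * S.r y i * (be m (S.r y) i i *
        (1 + δ * (Gm m y i i / S.L y i)) - Gm m y i i)| := Finset.abs_sum_le_sum_abs _ _
    _ ≤ ∑ i, (|τ i| * 2 + |τ i| * (2 * S.kap y)) := Finset.sum_le_sum fun i _ => hterm i
    _ = 2 * (∑ j, |τ j|) * (1 + S.kap y) := by
        rw [Finset.sum_add_distrib, ← Finset.sum_mul, ← Finset.sum_mul]; ring

theorem AP_bd (hWb : WbStatement) (hSl : SlStatement) (y : Pt k) (u : ℝ) :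
    |AP m hm δ h0 h1 η hη w τ y u| ≤ 4 * (∑ j, |τ j|) ^ 2 := by
  set S := fam m hm δ h0 h1 η hη w τ u with hS
  have hl := hSl n k S
  have hb := hWb n k m τ (S.r y) hm (hl.rpos y)
  have hterm : ∀ i, |τ i * S.r y i * al m τ (S.r y) i i * (1 + δ * (Gm m y i i / S.L y i))| ≤
      |τ i| * (4 * ∑ j, |τ j|) := by
    intro i
    have e : τ i * S.r y i * al m τ (S.r y) i i * (1 + δ * (Gm m y i i / S.L y i)) =
      τ i * ((S.r y i * al m τ (S.r y) i i) * (1 + δ * (Gm m y i i / S.L y i))) := by ring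
    have h5 := ratio m hm δ h0 h1 η hη w τ hSl y i u
    rw [e, abs_mul, abs_mul]
    apply mul_le_mul_of_nonneg_left _ (abs_nonneg _)
    calc |S.r y i * al m τ (S.r y) i i| * |1 + δ * (Gm m y i i / S.L y i)|
        ≤ (2 * ∑ j, |τ j|) * 2 := mul_le_mul (hb.ab1 i) h5 (abs_nonneg _)
          (mul_nonneg (by norm_num) (Finset.sum_nonneg fun j _ => abs_nonneg _))
      _ = 4 * ∑ j, |τ j| := by ring
  calc |AP m hm δ h0 h1 η hη w τ y u| ≤ ∑ i, |τ i * S.r y i * al m τ (S.r y) i i *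
        (1 + δ * (Gm m y i i / S.L y i))| := Finset.abs_sum_le_sum_abs _ _
    _ ≤ ∑ i, |τ i| * (4 * ∑ j, |τ j|) := Finset.sum_le_sum fun i _ => hterm i
    _ = 4 * (∑ j, |τ j|) ^ 2 := by rw [← Finset.sum_mul]; ring

/-- The sum of the squares bounds the norm. -/
theorem coer (hWa : WaStatement) (hm : Spans m) :
    ∃ B : ℝ, 0 < B ∧ ∀ y : Pt k, ‖y‖ ^ 2 ≤ B * ∑ i, Gm m y i i := by
  have hb := hWa n k m (fun _ => 1) hm (fun _ => one_pos)
  set B : ℝ := 1 + ∑ a, ∑ i, bb m (fun _ => 1) i a ^ 2 with hB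
  have hBn : ∀ a, ∑ i, bb m (fun _ => (1 : ℝ)) i a ^ 2 ≤ B := by
    intro a
    have := Finset.single_le_sum (f := fun a => ∑ i, bb m (fun _ => (1 : ℝ)) i a ^ 2)
      (fun a _ => Finset.sum_nonneg fun i _ => sq_nonneg _) (Finset.mem_univ a)
    linarith
  have hB0 : 0 < B := by
    have : 0 ≤ ∑ a, ∑ i, bb m (fun _ => (1 : ℝ)) i a ^ 2 :=
      Finset.sum_nonneg fun a _ => Finset.sum_nonneg fun i _ => sq_nonneg _
    linarith
  have hG0 : ∀ y : Pt k, 0 ≤ ∑ i, Gm m y i i := fun y =>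
    Finset.sum_nonneg fun i _ => Gm_nonneg m y i
  refine ⟨B, hB0, fun y => ?_⟩
  have hcoord : ∀ p : Fin k × Fin 3, y p ^ 2 ≤ B * ∑ i, Gm m y i i := by
    rintro ⟨a, c⟩
    have e : y (a, c) = ∑ i, bb m (fun _ => (1 : ℝ)) i a * Yv m y i c := by
      have h2 : ∑ i, bb m (fun _ => (1 : ℝ)) i a * Yv m y i c =
          ∑ b, (∑ i, 1 * bb m (fun _ => (1 : ℝ)) i a * m i b) * y (b, c) := by
        simp only [Yv, Finset.mul_sum, Finset.sum_mul]
        rw [Finset.sum_comm]
        exact Finset.sum_congr rfl fun b _ => Finset.sum_congr rfl fun i _ => by ring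
      rw [h2]
      have h3 : ∀ b, (∑ i, 1 * bb m (fun _ => (1 : ℝ)) i a * m i b) = if a = b then 1 else 0 :=
        fun b => hb.res a b
      simp only [h3]
      simp
    rw [e]
    have hcs := Finset.sum_mul_sq_le_sq_mul_sq Finset.univ
      (fun i => bb m (fun _ => (1 : ℝ)) i a) (fun i => Yv m y i c)
    refine hcs.trans (mul_le_mul (hBn a) ?_ (Finset.sum_nonneg fun i _ => sq_nonneg _) hB0.le)
    apply Finset.sum_le_sum
    intro i _
    have := Finset.single_le_sum (f := fun c => Yv m y i c * Yv m y i c)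
      (fun c _ => mul_self_nonneg _) (Finset.mem_univ c)
    unfold Gm
    nlinarith
  have hn : ‖y‖ ≤ Real.sqrt (B * ∑ i, Gm m y i i) := by
    rw [pi_norm_le_iff_of_nonneg (Real.sqrt_nonneg _)]
    intro p
    rw [Real.norm_eq_abs]
    exact Real.abs_le_sqrt (hcoord p)
  calc ‖y‖ ^ 2 ≤ Real.sqrt (B * ∑ i, Gm m y i i) ^ 2 := pow_le_pow_left₀ (norm_nonneg _) hn 2
    _ = B * ∑ i, Gm m y i i := Real.sq_sqrt (mul_nonneg hB0.le (hG0 y))

theorem Wbd (u u' : ℝ) (hu : |u' - u| < 1) (i : Fin n) :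
    |w i + u' * τ i| ≤ (∑ j, |w j|) + (|u| + 1) * ∑ j, |τ j| := by
  have hw : |w i| ≤ ∑ j, |w j| :=
    Finset.single_le_sum (f := fun j => |w j|) (fun j _ => abs_nonneg _) (Finset.mem_univ i)
  have ht : |τ i| ≤ ∑ j, |τ j| :=
    Finset.single_le_sum (f := fun j => |τ j|) (fun j _ => abs_nonneg _) (Finset.mem_univ i)
  have hu' : |u'| ≤ |u| + 1 := by
    have := abs_sub_abs_le_abs_sub u' u
    linarith
  have h2 : |w i + u' * τ i| ≤ |w i| + |u'| * |τ i| := by
    rw [← abs_mul]; exact abs_add_le _ _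
  have h3 : |u'| * |τ i| ≤ (|u| + 1) * ∑ j, |τ j| :=
    mul_le_mul hu' ht (abs_nonneg _) (by positivity)
  linarith

theorem kap_low (hWa : WaStatement) (hSl : SlStatement) (u : ℝ) :
    ∃ a : ℝ, 0 < a ∧ ∀ u' : ℝ, |u' - u| < 1 → ∀ y : Pt k,
      a * ‖y‖ ^ 2 ≤ (fam m hm δ h0 h1 η hη w τ u').kap y := by
  obtain ⟨B, hB, hco⟩ := coer m hWa hm
  set W : ℝ := (∑ j, |w j|) + (|u| + 1) * ∑ j, |τ j| with hW
  have hW0 : 0 ≤ W := by positivity
  refine ⟨Real.exp (-(2 * W)) * (η * Real.exp (-W)) ^ δ / B, by positivity,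
    fun u' hu' y => ?_⟩
  set S := fam m hm δ h0 h1 η hη w τ u' with hS
  have hl := hSl n k S
  have hterm : ∀ i, Real.exp (-(2 * W)) * (η * Real.exp (-W)) ^ δ * Gm m y i i ≤
      S.c i / (1 + δ) * S.L y i ^ (1 + δ) := by
    intro i
    have hwi := abs_le.mp (Wbd w τ u u' hu' i)
    have hc : S.c i / (1 + δ) = Real.exp ((1 + δ) * (w i + u' * τ i)) := by
      have : (1 + δ) ≠ 0 := by linarith
      show (1 + δ) * Real.exp ((1 + δ) * (w i + u' * τ i)) / (1 + δ) = _
      field_simp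
    have hc1 : Real.exp (-(2 * W)) ≤ S.c i / (1 + δ) := by
      rw [hc]
      apply Real.exp_le_exp.mpr
      nlinarith [hwi.1]
    have hG := Gm_nonneg m y i
    have he : η * Real.exp (-W) ≤ η * Real.exp (-(w i + u' * τ i)) :=
      mul_le_mul_of_nonneg_left (Real.exp_le_exp.mpr (by linarith [hwi.2])) hη.le
    have hLe : S.L y i = Gm m y i i + η * Real.exp (-(w i + u' * τ i)) := rfl
    have hL1 : η * Real.exp (-W) ≤ S.L y i := by rw [hLe]; linarith
    have hL2 : Gm m y i i ≤ S.L y i := by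
      rw [hLe]
      have : 0 < η * Real.exp (-(w i + u' * τ i)) := by positivity
      linarith
    rw [Real.rpow_add (hl.Lpos y i), Real.rpow_one, mul_assoc]
    apply mul_le_mul hc1 _ (by positivity) (by rw [hc]; positivity)
    rw [mul_comm (S.L y i)]
    exact mul_le_mul (Real.rpow_le_rpow (by positivity) hL1 h0.le) hL2 hG
      (Real.rpow_nonneg (hl.Lpos y i).le _)
  have hsum : Real.exp (-(2 * W)) * (η * Real.exp (-W)) ^ δ * ∑ i, Gm m y i i ≤ S.kap y := by
    rw [Finset.mul_sum]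
    exact Finset.sum_le_sum fun i _ => hterm i
  refine le_trans ?_ hsum
  rw [div_mul_eq_mul_div, div_le_iff₀ hB]
  calc Real.exp (-(2 * W)) * (η * Real.exp (-W)) ^ δ * ‖y‖ ^ 2 ≤
      Real.exp (-(2 * W)) * (η * Real.exp (-W)) ^ δ * (B * ∑ i, Gm m y i i) :=
        mul_le_mul_of_nonneg_left (hco y) (by positivity)
    _ = _ := by ring

theorem r_up (hSl : SlStatement) (u u' : ℝ) (hu' : |u' - u| < 1) (y : Pt k) :
    ∑ i, (fam m hm δ h0 h1 η hη w τ u').r y i ≤
      (2 * n * Real.exp (2 * ((∑ j, |w j|) + (|u| + 1) * ∑ j, |τ j|)) + 2) *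
        (1 + (fam m hm δ h0 h1 η hη w τ u').kap y) := by
  set W : ℝ := (∑ j, |w j|) + (|u| + 1) * ∑ j, |τ j| with hW
  have hW0 : 0 ≤ W := by positivity
  set S := fam m hm δ h0 h1 η hη w τ u' with hS
  have hl := hSl n k S
  have hk := hl.kap0 y
  have hterm : ∀ i, S.r y i ≤ 2 * Real.exp (2 * W) + 2 * (S.c i / (1 + δ) * S.L y i ^ (1 + δ)) := by
    intro i
    have hwi := abs_le.mp (Wbd w τ u u' hu' i)
    have hc : S.c i = (1 + δ) * Real.exp ((1 + δ) * (w i + u' * τ i)) := rfl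
    have hc0 : 0 < S.c i := S.hc i
    have hc1 : S.c i ≤ 2 * Real.exp (2 * W) := by
      rw [hc]
      apply mul_le_mul (by linarith) _ (Real.exp_pos _).le (by norm_num)
      apply Real.exp_le_exp.mpr
      nlinarith [hwi.2]
    have hL := hl.Lpos y i
    have hLp : S.L y i ^ δ ≤ 1 + S.L y i ^ (1 + δ) := by
      rcases le_total (S.L y i) 1 with h | h
      · have h2 := Real.rpow_le_one hL.le h h0.le
        have h3 := Real.rpow_nonneg hL.le (1 + δ)
        linarith
      · have h2 := Real.rpow_le_rpow_of_exponent_le h (show δ ≤ 1 + δ by linarith)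
        linarith
    have hr : S.r y i = S.c i * S.L y i ^ δ := rfl
    have h4 : S.c i * S.L y i ^ (1 + δ) ≤ 2 * (S.c i / (1 + δ) * S.L y i ^ (1 + δ)) := by
      have h5 : 0 ≤ S.c i * S.L y i ^ (1 + δ) := mul_nonneg hc0.le (Real.rpow_nonneg hL.le _)
      have h6 : 2 * (S.c i / (1 + δ) * S.L y i ^ (1 + δ)) =
          S.c i * S.L y i ^ (1 + δ) * (2 / (1 + δ)) := by ring
      rw [h6]
      have h7 : 1 ≤ 2 / (1 + δ) := by
        rw [le_div_iff₀ (by linarith)]; linarith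
      nlinarith
    rw [hr]
    calc S.c i * S.L y i ^ δ ≤ S.c i * (1 + S.L y i ^ (1 + δ)) :=
          mul_le_mul_of_nonneg_left hLp hc0.le
      _ = S.c i + S.c i * S.L y i ^ (1 + δ) := by ring
      _ ≤ _ := add_le_add hc1 h4
  have hE : 0 < Real.exp (2 * W) := Real.exp_pos _
  calc ∑ i, S.r y i ≤ ∑ i, (2 * Real.exp (2 * W) + 2 * (S.c i / (1 + δ) * S.L y i ^ (1 + δ))) :=
        Finset.sum_le_sum fun i _ => hterm i
    _ = n * (2 * Real.exp (2 * W)) + 2 * S.kap y := by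
        rw [Finset.sum_add_distrib, Finset.sum_const, ← Finset.mul_sum, Finset.card_univ,
          Fintype.card_fin, nsmul_eq_mul]
        rfl
    _ ≤ _ := by
        have hn : (0 : ℝ) ≤ n * Real.exp (2 * W) := by positivity
        nlinarith

theorem det_bd (hSl : SlStatement) (y : Pt k) (u' : ℝ) :
    |(RR m ((fam m hm δ h0 h1 η hη w τ u').r y)).det| ≤
      k.factorial * ((∑ i, ∑ a, |m i a|) ^ 2 * ∑ i, (fam m hm δ h0 h1 η hη w τ u').r y i) ^ k := by
  set S := fam m hm δ h0 h1 η hη w τ u' with hS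
  have hl := hSl n k S
  set M := ∑ i, ∑ a, |m i a| with hM
  have hMa : ∀ i a, |m i a| ≤ M := by
    intro i a
    have h1 : |m i a| ≤ ∑ a, |m i a| :=
      Finset.single_le_sum (f := fun a => |m i a|) (fun a _ => abs_nonneg _) (Finset.mem_univ a)
    have h2 : ∑ a, |m i a| ≤ ∑ i, ∑ a, |m i a| :=
      Finset.single_le_sum (f := fun i => ∑ a, |m i a|)
        (fun i _ => Finset.sum_nonneg fun a _ => abs_nonneg _) (Finset.mem_univ i)
    exact h1.trans h2
  have hM0 : 0 ≤ M := Finset.sum_nonneg fun i _ => Finset.sum_nonneg fun a _ => abs_nonneg _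
  have hent : ∀ a b, (AbsoluteValue.abs : AbsoluteValue ℝ ℝ) (RR m (S.r y) a b) ≤
      M ^ 2 * ∑ i, S.r y i := by
    intro a b
    rw [AbsoluteValue.abs_apply]
    have e : RR m (S.r y) a b = ∑ i, S.r y i * (m i a * m i b) := by
      simp [RR, Matrix.sum_apply, vecMulVec_apply]
    rw [e, Finset.mul_sum]
    refine (Finset.abs_sum_le_sum_abs _ _).trans (Finset.sum_le_sum fun i _ => ?_)
    rw [abs_mul, abs_mul, abs_of_pos (hl.rpos y i), mul_comm]
    apply mul_le_mul_of_nonneg_right _ (hl.rpos y i).le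
    rw [sq]
    exact mul_le_mul (hMa i a) (hMa i b) (abs_nonneg _) hM0
  have h := Matrix.det_le hent
  rwa [AbsoluteValue.abs_apply, Fintype.card_fin, nsmul_eq_mul] at h

theorem dom (hWa : WaStatement) (hSl : SlStatement) (u : ℝ) :
    ∃ C a : ℝ, 0 ≤ C ∧ 0 < a ∧ ∀ u' : ℝ, |u' - u| < 1 → ∀ y : Pt k,
      (1 + (fam m hm δ h0 h1 η hη w τ u').kap y) * |(fam m hm δ h0 h1 η hη w τ u').rho y| ≤
        C * Real.exp (-(a * ‖y‖ ^ 2)) := by
  obtain ⟨a, ha, hlow⟩ := kap_low m hm δ h0 h1 η hη w τ hWa hSl u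
  set W : ℝ := (∑ j, |w j|) + (|u| + 1) * ∑ j, |τ j| with hW
  set M := ∑ i, ∑ a, |m i a| with hM
  set A : ℝ := 2 * n * Real.exp (2 * W) + 2 with hA
  set D : ℝ := k.factorial * (M ^ 2 * A) ^ k with hD
  set P : ℝ := 2 ^ (k + 1) * (k + 1).factorial * Real.exp (1 / 2) with hP
  have hD0 : 0 ≤ D := by positivity
  refine ⟨D * P, a / 2, by positivity, by linarith, fun u' hu' y => ?_⟩
  set S := fam m hm δ h0 h1 η hη w τ u' with hS
  have hl := hSl n k S
  have hk := hl.kap0 y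
  have h2 : |(RR m (S.r y)).det| ≤ D * (1 + S.kap y) ^ k := by
    refine (det_bd m hm δ h0 h1 η hη w τ hSl y u').trans ?_
    rw [hD, mul_assoc, ← mul_pow]
    apply mul_le_mul_of_nonneg_left _ (by positivity)
    apply pow_le_pow_left₀
    · exact mul_nonneg (sq_nonneg _) (Finset.sum_nonneg fun i _ => (hl.rpos y i).le)
    · rw [mul_assoc]
      exact mul_le_mul_of_nonneg_left (r_up m hm δ h0 h1 η hη w τ hSl u u' hu' y) (sq_nonneg _)
  have h3 : |S.rho y| = |(RR m (S.r y)).det| * Real.exp (-(S.kap y)) := by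
    show |(RR m (S.r y)).det * Real.exp (-(S.kap y))| = _
    rw [abs_mul, abs_of_pos (Real.exp_pos _)]
  rw [h3]
  calc (1 + S.kap y) * (|(RR m (S.r y)).det| * Real.exp (-(S.kap y)))
      ≤ (1 + S.kap y) * (D * (1 + S.kap y) ^ k * Real.exp (-(S.kap y))) := by gcongr
    _ = D * ((1 + S.kap y) ^ (k + 1) * Real.exp (-(S.kap y))) := by ring
    _ ≤ D * (P * Real.exp (-(S.kap y / 2))) := mul_le_mul_of_nonneg_left (pe (k + 1) hk) hD0
    _ ≤ D * (P * Real.exp (-(a / 2 * ‖y‖ ^ 2))) := by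
        have h4 := hlow u' hu' y
        have h5 : Real.exp (-(S.kap y / 2)) ≤ Real.exp (-(a / 2 * ‖y‖ ^ 2)) :=
          Real.exp_le_exp.mpr (by linarith)
        have hP0 : 0 ≤ P := by positivity
        exact mul_le_mul_of_nonneg_left (mul_le_mul_of_nonneg_left h5 hP0) hD0
    _ = D * P * Real.exp (-(a / 2 * ‖y‖ ^ 2)) := by ring

/-! ### Continuity in `y` -/

theorem c_r (hSl : SlStatement) (u : ℝ) :
    Continuous fun y => (fam m hm δ h0 h1 η hη w τ u).r y :=
  continuous_pi fun i => ((hSl n k (fam m hm δ h0 h1 η hη w τ u)).sr i).continuous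

theorem c_rho (hSl : SlStatement) (hWd : WdStatement) (u : ℝ) :
    Continuous fun y => (fam m hm δ h0 h1 η hη w τ u).rho y := by
  have h1' := (hWd n k m hm).1.continuous.comp (c_r m hm δ h0 h1 η hη w τ hSl u)
  have h2' := (hSl n k (fam m hm δ h0 h1 η hη w τ u)).skap.continuous
  exact h1'.mul h2'.neg.rexp

theorem c_comp (hSl : SlStatement) (u : ℝ) (f : (Fin n → ℝ) → ℝ)
    (hf : ∀ r : Fin n → ℝ, (∀ i, 0 < r i) → ContinuousAt f r) :
    Continuous fun y => f ((fam m hm δ h0 h1 η hη w τ u).r y) := by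
  rw [continuous_iff_continuousAt]
  intro y
  exact ContinuousAt.comp (f := fun y => (fam m hm δ h0 h1 η hη w τ u).r y) (g := f)
    (hf _ ((hSl n k (fam m hm δ h0 h1 η hη w τ u)).rpos y))
    (c_r m hm δ h0 h1 η hη w τ hSl u).continuousAt

theorem c_G (i : Fin n) : Continuous fun y : Pt k => Gm m y i i := by
  unfold Gm Yv
  fun_prop

theorem c_q (hSl : SlStatement) (u : ℝ) (i : Fin n) :
    Continuous fun y => Gm m y i i / (fam m hm δ h0 h1 η hη w τ u).L y i :=
  (c_G m i).div ((hSl n k (fam m hm δ h0 h1 η hη w τ u)).sL i).continuous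
    fun y => ((hSl n k (fam m hm δ h0 h1 η hη w τ u)).Lpos y i).ne'

theorem c_ri (hSl : SlStatement) (u : ℝ) (i : Fin n) :
    Continuous fun y => (fam m hm δ h0 h1 η hη w τ u).r y i :=
  ((hSl n k (fam m hm δ h0 h1 η hη w τ u)).sr i).continuous

theorem c_PP (hSl : SlStatement) (hWd : WdStatement) (u : ℝ) :
    Continuous fun y => PP m hm δ h0 h1 η hη w τ y u := by
  unfold PP
  refine continuous_finsetSum _ fun i _ => ?_
  have hb := c_comp m hm δ h0 h1 η hη w τ hSl u (fun x => be m x i i)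
    fun r hr => ((hWd n k m hm).2.2 r hr).2.2.2 i i |>.continuousAt
  have hq := c_q m hm δ h0 h1 η hη w τ hSl u i
  have hr := c_ri m hm δ h0 h1 η hη w τ hSl u i
  exact (continuous_const.mul hr).mul
    ((hb.mul (continuous_const.add (continuous_const.mul hq))).sub (c_G m i))

theorem c_AP (hSl : SlStatement) (hWe : WeStatement) (u : ℝ) :
    Continuous fun y => AP m hm δ h0 h1 η hη w τ y u := by
  unfold AP
  refine continuous_finsetSum _ fun i _ => ?_
  have hb := c_comp m hm δ h0 h1 η hη w τ hSl u (fun x => al m τ x i i)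
    fun r hr => ((hWe n k m τ hm r hr).1 i i).continuousAt
  have hq := c_q m hm δ h0 h1 η hη w τ hSl u i
  have hr := c_ri m hm δ h0 h1 η hη w τ hSl u i
  exact ((continuous_const.mul hr).mul hb).mul (continuous_const.add (continuous_const.mul hq))

theorem c_aa (hSl : SlStatement) (hWe : WeStatement) (u : ℝ) :
    Continuous fun y => aa m τ ((fam m hm δ h0 h1 η hη w τ u).r y) :=
  c_comp m hm δ h0 h1 η hη w τ hSl u (fun x => aa m τ x)
    fun r hr => (hWe n k m τ hm r hr).2.1.continuousAt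

/-- The general form. -/
theorem gen (hWa : WaStatement) (hSl : SlStatement) (u : ℝ)
    (F F' : ℝ → Pt k → ℝ) (T : ℝ)
    (hF : ∀ u', Continuous (F u')) (hF' : ∀ u', Continuous (F' u'))
    (hFb : ∀ u' y, |F u' y| ≤ T * ((1 + (fam m hm δ h0 h1 η hη w τ u').kap y) *
      |(fam m hm δ h0 h1 η hη w τ u').rho y|))
    (hFb' : ∀ u' y, |F' u' y| ≤ T * ((1 + (fam m hm δ h0 h1 η hη w τ u').kap y) *
      |(fam m hm δ h0 h1 η hη w τ u').rho y|)) (hT : 0 ≤ T)
    (hd : ∀ u' y, HasDerivAt (fun u => F u y) (F' u' y) u') :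
    HasDerivAt (fun u => ∫ y, F u y) (∫ y, F' u y) u := by
  obtain ⟨C, a, hC, ha, hdom⟩ := dom m hm δ h0 h1 η hη w τ hWa hSl u
  have hint : Integrable fun y : Pt k => T * (C * Real.exp (-(a * ‖y‖ ^ 2))) :=
    ((gauss_int ha).const_mul C).const_mul T
  refine (hasDerivAt_integral_of_dominated_loc_of_deriv_le
    (bound := fun y => T * (C * Real.exp (-(a * ‖y‖ ^ 2))))
    (Metric.ball_mem_nhds u one_pos)
    (Eventually.of_forall fun u' => (hF u').aestronglyMeasurable)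
    (hint.mono' (hF u).aestronglyMeasurable (Eventually.of_forall fun y => ?_))
    (hF' u).aestronglyMeasurable
    (Eventually.of_forall fun y u' hu' => ?_) hint
    (Eventually.of_forall fun y u' _ => hd u' y)).2
  · rw [Real.norm_eq_abs]
    exact (hFb u y).trans (mul_le_mul_of_nonneg_left (hdom u (by simp) y) hT)
  · rw [Real.norm_eq_abs]
    rw [Metric.mem_ball, Real.dist_eq] at hu'
    exact (hFb' u' y).trans (mul_le_mul_of_nonneg_left (hdom u' hu' y) hT)

end

/-- DU -/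
theorem du_st (hWa : WaStatement) (hWb : WbStatement) (hWd : WdStatement) (hWe : WeStatement)
    (hSl : SlStatement) : DuStatement := by
  intro n k m hm δ h0 h1 η hη w τ u S
  set T := ∑ j, |τ j| with hT
  have hT0 : 0 ≤ T := Finset.sum_nonneg fun j _ => abs_nonneg _
  constructor
  · refine gen m hm δ h0 h1 η hη w τ hWa hSl u (fun u y => (S u).rho y)
      (fun u y => PP m hm δ h0 h1 η hη w τ y u * (S u).rho y) (1 + 2 * T)
      (c_rho m hm δ h0 h1 η hη w τ hSl hWd)
      (fun u' => (c_PP m hm δ h0 h1 η hη w τ hSl hWd u').mul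
        (c_rho m hm δ h0 h1 η hη w τ hSl hWd u')) (fun u' y => ?_) (fun u' y => ?_)
      (by linarith) (fun u' y => drho m hm δ h0 h1 η hη w τ hSl hWd y u')
    · have hk := (hSl n k (fam m hm δ h0 h1 η hη w τ u')).kap0 y
      have hr := abs_nonneg ((fam m hm δ h0 h1 η hη w τ u').rho y)
      show |(fam m hm δ h0 h1 η hη w τ u').rho y| ≤ _
      have h2 := mul_nonneg hk hr
      have h3 := mul_nonneg hT0 (add_nonneg hr h2)
      nlinarith
    · have hk := (hSl n k (fam m hm δ h0 h1 η hη w τ u')).kap0 y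
      have hr := abs_nonneg ((fam m hm δ h0 h1 η hη w τ u').rho y)
      have hP := PP_bd m hm δ h0 h1 η hη w τ hWa hSl y u'
      show |PP m hm δ h0 h1 η hη w τ y u' * (fam m hm δ h0 h1 η hη w τ u').rho y| ≤ _
      rw [abs_mul]
      have h2 := mul_le_mul_of_nonneg_right hP hr
      have h3 := mul_nonneg (add_nonneg zero_le_one hk) hr
      rw [← hT] at h2
      nlinarith
  · have key := gen m hm δ h0 h1 η hη w τ hWa hSl u (fun u y => aa m τ ((S u).r y) * (S u).rho y)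
      (fun u y => (AP m hm δ h0 h1 η hη w τ y u + aa m τ ((S u).r y) *
        PP m hm δ h0 h1 η hη w τ y u) * (S u).rho y) (T + 6 * T ^ 2)
      (fun u' => (c_aa m hm δ h0 h1 η hη w τ hSl hWe u').mul
        (c_rho m hm δ h0 h1 η hη w τ hSl hWd u'))
      (fun u' => ((c_AP m hm δ h0 h1 η hη w τ hSl hWe u').add
        ((c_aa m hm δ h0 h1 η hη w τ hSl hWe u').mul
          (c_PP m hm δ h0 h1 η hη w τ hSl hWd u'))).mul
        (c_rho m hm δ h0 h1 η hη w τ hSl hWd u')) (fun u' y => ?_) (fun u' y => ?_)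
      (by positivity) (fun u' y => ?_)
    · exact key
    · have hk := (hSl n k (fam m hm δ h0 h1 η hη w τ u')).kap0 y
      have hr := abs_nonneg ((fam m hm δ h0 h1 η hη w τ u').rho y)
      have hA := (hWb n k m τ ((fam m hm δ h0 h1 η hη w τ u').r y) hm
        ((hSl n k (fam m hm δ h0 h1 η hη w τ u')).rpos y)).ab2
      show |aa m τ ((fam m hm δ h0 h1 η hη w τ u').r y) *
        (fam m hm δ h0 h1 η hη w τ u').rho y| ≤ _
      rw [abs_mul]
      have h2 := mul_le_mul_of_nonneg_right hA hr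
      have h3 := mul_nonneg hk hr
      have h4 := mul_nonneg hT0 h3
      have h5 := mul_nonneg (sq_nonneg T) (add_nonneg hr h3)
      rw [← hT] at h2
      nlinarith
    · have hk := (hSl n k (fam m hm δ h0 h1 η hη w τ u')).kap0 y
      have hr := abs_nonneg ((fam m hm δ h0 h1 η hη w τ u').rho y)
      have hA := (hWb n k m τ ((fam m hm δ h0 h1 η hη w τ u').r y) hm
        ((hSl n k (fam m hm δ h0 h1 η hη w τ u')).rpos y)).ab2
      have hP := PP_bd m hm δ h0 h1 η hη w τ hWa hSl y u'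
      have hQ := AP_bd m hm δ h0 h1 η hη w τ hWb hSl y u'
      show |(AP m hm δ h0 h1 η hη w τ y u' + aa m τ ((fam m hm δ h0 h1 η hη w τ u').r y) *
        PP m hm δ h0 h1 η hη w τ y u') * (fam m hm δ h0 h1 η hη w τ u').rho y| ≤ _
      rw [abs_mul]
      rw [← hT] at hA hP hQ
      have h2 : |AP m hm δ h0 h1 η hη w τ y u' + aa m τ ((fam m hm δ h0 h1 η hη w τ u').r y) *
          PP m hm δ h0 h1 η hη w τ y u'| ≤
          4 * T ^ 2 + T * (2 * T * (1 + (fam m hm δ h0 h1 η hη w τ u').kap y)) := by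
        refine (abs_add_le _ _).trans (add_le_add hQ ?_)
        rw [abs_mul]
        exact mul_le_mul hA hP (abs_nonneg _) hT0
      have h3 : 4 * T ^ 2 + T * (2 * T * (1 + (fam m hm δ h0 h1 η hη w τ u').kap y)) ≤
          (T + 6 * T ^ 2) * (1 + (fam m hm δ h0 h1 η hη w τ u').kap y) := by
        have h4 := mul_nonneg hT0 hk
        have h5 := mul_nonneg (sq_nonneg T) hk
        nlinarith
      calc _ ≤ (T + 6 * T ^ 2) * (1 + (fam m hm δ h0 h1 η hη w τ u').kap y) *
            |(fam m hm δ h0 h1 η hη w τ u').rho y| :=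
          mul_le_mul_of_nonneg_right (h2.trans h3) hr
        _ = _ := by ring
    · refine HasDerivAt.congr_deriv ((daa m hm δ h0 h1 η hη w τ hSl hWe y u').mul
        (drho m hm δ h0 h1 η hη w τ hSl hWd y u')) ?_
      show _ = (AP m hm δ h0 h1 η hη w τ y u' + aa m τ ((fam m hm δ h0 h1 η hη w τ u').r y) *
        PP m hm δ h0 h1 η hη w τ y u') * (fam m hm δ h0 h1 η hη w τ u').rho y
      ring

end Pool.Agent.Lib.MP_fa837f_gt.P2.H33
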